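import Pool.Agent.H13.RB.Dens
import Pool.Agent.H13.RB.Ring
import Pool.Agent.H13.RB.Lower
import Pool.Agent.H13.RB.Expo

set_option autoImplicit false

namespace Pool.Agent.Results.MP_1e1895_co.LogarithmicHeight

/-- Modular Rado boundedness: logarithmic bounds, bounded height, and a lower bound.
(1) All but at most `p / 2 ^ m` of the nonzero residues can be coloured with `m * (4 k) ^ k` colours
without monochromatic solutions (within these residues).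
(2) All nonzero residues can be coloured with `(log_2 p + 1) * (4 k) ^ k` colours.
(3) If a nonzero dilate of the tuple consists of simultaneous eigenvalues mod `p` (with a common
eigenvector) of integer `n × n` matrices with entries at most `M`, all of whose subset sums are
nonsingular, then `C_{k,n} * (log_2 M + 1) ^ n` colours suffice, uniformly in `p`. For `n = 1`: the
dilate has integer representatives of absolute value at most `M`.
(4) If a nonzero dilate of the tuple is the image of a tuple of elements with coordinates at most `M`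
of a number ring of rank `n`, then `C * (log_2 M + 1) ^ n` colours suffice, uniformly in `p`.
(5) At least `k` colours are needed for every zero-sum-free tuple when `p > (k - 1) ^ 2 + 1`.
(6) If `2 ^ (k - 1) < p ≤ 2 ^ k`, there is a zero-sum-free `k`-tuple all of whose good colourings are
injective, so that `p - 1` colours are needed.
(7) Every function `f` as in the question satisfies `f k ≥ 2 ^ (k - 1)`. -/
theorem result :
    (∀ k : ℕ, 1 ≤ k → ∀ p : ℕ, p.Prime → ∀ a : Fin k → ℤ,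
      (∑ i, ((a i : ℤ) : ZMod p)) ≠ 0 →
      ∀ m : ℕ, 1 ≤ m →
      ∃ (E : Finset (ZMod p)ˣ) (c : (ZMod p)ˣ → Fin (m * (4 * k) ^ k)),
        2 ^ m * E.card ≤ p ∧
        ∀ x : Fin k → (ZMod p)ˣ, (∀ i, x i ∉ E) →
          (∑ i, ((a i : ℤ) : ZMod p) * ((x i : (ZMod p)ˣ) : ZMod p)) = 0 →
          ∃ i j : Fin k, c (x i) ≠ c (x j)) ∧
    (∀ k : ℕ, 1 ≤ k → ∀ p : ℕ, p.Prime → ∀ a : Fin k → ℤ,
      (∑ i, ((a i : ℤ) : ZMod p)) ≠ 0 →
      ∃ c : (ZMod p)ˣ → Fin ((Nat.log 2 p + 1) * (4 * k) ^ k),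
        ∀ x : Fin k → (ZMod p)ˣ,
          (∑ i, ((a i : ℤ) : ZMod p) * ((x i : (ZMod p)ˣ) : ZMod p)) = 0 →
          ∃ i j : Fin k, c (x i) ≠ c (x j)) ∧
    (∀ k n : ℕ, 1 ≤ k → 1 ≤ n → ∃ C : ℕ, ∀ p : ℕ, p.Prime → ∀ a : Fin k → ℤ,
      (∀ I : Finset (Fin k), I.Nonempty → (∑ i ∈ I, ((a i : ℤ) : ZMod p)) ≠ 0) →
      ∀ (M : ℕ) (t : ZMod p) (B : Fin k → Matrix (Fin n) (Fin n) ℤ) (v : Fin n → ZMod p),
      t ≠ 0 → v ≠ 0 →
      (∀ i r s, |B i r s| ≤ (M : ℤ)) →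
      (∀ I : Finset (Fin k), I.Nonempty → (∑ i ∈ I, B i).det ≠ 0) →
      (∀ i, ((B i).map (Int.cast : ℤ → ZMod p)).mulVec v = (t * ((a i : ℤ) : ZMod p)) • v) →
      ∃ c : (ZMod p)ˣ → Fin (C * (Nat.log 2 M + 1) ^ n),
        ∀ x : Fin k → (ZMod p)ˣ,
          (∑ i, ((a i : ℤ) : ZMod p) * ((x i : (ZMod p)ˣ) : ZMod p)) = 0 →
          ∃ i j : Fin k, c (x i) ≠ c (x j)) ∧
    (∀ (k n : ℕ), 1 ≤ k → ∀ (R : Type) [CommRing R] [IsDomain R] (b : Module.Basis (Fin n) ℤ R),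
      ∃ C : ℕ, ∀ p : ℕ, p.Prime → ∀ a : Fin k → ℤ,
      (∀ I : Finset (Fin k), I.Nonempty → (∑ i ∈ I, ((a i : ℤ) : ZMod p)) ≠ 0) →
      ∀ (φ : R →+* ZMod p) (M : ℕ) (t : ZMod p) (α : Fin k → R), t ≠ 0 →
      (∀ i s, |b.repr (α i) s| ≤ (M : ℤ)) →
      (∀ i, t * ((a i : ℤ) : ZMod p) = φ (α i)) →
      ∃ c : (ZMod p)ˣ → Fin (C * (Nat.log 2 M + 1) ^ n),
        ∀ x : Fin k → (ZMod p)ˣ,
          (∑ i, ((a i : ℤ) : ZMod p) * ((x i : (ZMod p)ˣ) : ZMod p)) = 0 →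
          ∃ i j : Fin k, c (x i) ≠ c (x j)) ∧
    (∀ k : ℕ, 1 ≤ k → ∀ p : ℕ, p.Prime → (k - 1) ^ 2 + 1 < p → ∀ a : Fin k → ℤ,
      (∀ I : Finset (Fin k), I.Nonempty → (∑ i ∈ I, ((a i : ℤ) : ZMod p)) ≠ 0) →
      ∀ (r : ℕ) (c : (ZMod p)ˣ → Fin r),
        (∀ x : Fin k → (ZMod p)ˣ,
          (∑ i, ((a i : ℤ) : ZMod p) * ((x i : (ZMod p)ˣ) : ZMod p)) = 0 →
          ∃ i j : Fin k, c (x i) ≠ c (x j)) → k ≤ r) ∧
    (∀ k : ℕ, 1 ≤ k → ∀ p : ℕ, p.Prime → 2 ^ (k - 1) < p → p ≤ 2 ^ k →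
      ∃ a : Fin k → ℤ,
      (∀ I : Finset (Fin k), I.Nonempty → (∑ i ∈ I, ((a i : ℤ) : ZMod p)) ≠ 0) ∧
      ∀ (r : ℕ) (c : (ZMod p)ˣ → Fin r),
        (∀ x : Fin k → (ZMod p)ˣ,
          (∑ i, ((a i : ℤ) : ZMod p) * ((x i : (ZMod p)ˣ) : ZMod p)) = 0 →
          ∃ i j : Fin k, c (x i) ≠ c (x j)) → Function.Injective c ∧ p - 1 ≤ r) ∧
    (∀ f : ℕ → ℕ, (∀ k : ℕ, 1 ≤ k → ∀ p : ℕ, p.Prime → ∀ a : Fin k → ℤ,
      (∀ I : Finset (Fin k), I.Nonempty → (∑ i ∈ I, ((a i : ℤ) : ZMod p)) ≠ 0) →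
      ∃ c : (ZMod p)ˣ → Fin (f k),
        ∀ x : Fin k → (ZMod p)ˣ,
          (∑ i, ((a i : ℤ) : ZMod p) * ((x i : (ZMod p)ˣ) : ZMod p)) = 0 →
          ∃ i j : Fin k, c (x i) ≠ c (x j)) →
      ∀ k : ℕ, 1 ≤ k → 2 ^ (k - 1) ≤ f k) := by
  refine ⟨?_, ?_, ?_, ?_, ?_, ?_, ?_⟩
  · intro k hk p hp a hs m hm
    have : Fact p.Prime := ⟨hp⟩
    exact Pool.Agent.H13.RB.density hk a hs m hm
  · intro k hk p hp a hs
    have : Fact p.Prime := ⟨hp⟩
    obtain ⟨E, c, hE, hc⟩ := Pool.Agent.H13.RB.density hk a hs (Nat.log 2 p + 1) (by omega)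
    refine ⟨c, fun x hx => hc x (fun i hi => ?_) hx⟩
    have h1 : 0 < E.card := Finset.card_pos.mpr ⟨_, hi⟩
    have h2 : p < 2 ^ (Nat.log 2 p + 1) := Nat.lt_pow_succ_log_self (by norm_num) p
    have h3 : 2 ^ (Nat.log 2 p + 1) * 1 ≤ 2 ^ (Nat.log 2 p + 1) * E.card :=
      Nat.mul_le_mul_left _ h1
    omega
  · intro k n hk hn
    obtain ⟨C, hC⟩ := Pool.Agent.H13.RB.matrix_core hk hn
    refine ⟨C, ?_⟩
    intro p hp a hzs M t B v ht hv hB hdet hev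
    have : Fact p.Prime := ⟨hp⟩
    have hM : ∀ i r s, |B i r s| ≤ 2 ^ (Nat.log 2 M + 1) := by
      intro i r s
      have h2 : M < 2 ^ (Nat.log 2 M + 1) := Nat.lt_pow_succ_log_self (by norm_num) M
      have h3 : (M : ℤ) ≤ 2 ^ (Nat.log 2 M + 1) := by exact_mod_cast h2.le
      exact (hB i r s).trans h3
    have hS : ∑ i, t * ((a i : ℤ) : ZMod p) ≠ 0 := by
      rw [← Finset.mul_sum]
      exact mul_ne_zero ht (hzs Finset.univ ⟨⟨0, by omega⟩, Finset.mem_univ _⟩)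
    obtain ⟨c, hc⟩ := hC p (Nat.log 2 M + 1) (by omega) B hM hdet
      (fun i => t * ((a i : ℤ) : ZMod p)) v hv hS (by
        intro i s
        have h1 := congrFun (hev i) s
        exact h1)
    refine ⟨c, fun x hx => hc x ?_⟩
    have h1 : ∑ i, t * ((a i : ℤ) : ZMod p) * ((x i : (ZMod p)ˣ) : ZMod p) =
        t * ∑ i, ((a i : ℤ) : ZMod p) * ((x i : (ZMod p)ˣ) : ZMod p) := by
      rw [Finset.mul_sum]
      exact Finset.sum_congr rfl (fun i _ => by ring)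
    rw [h1, hx, mul_zero]
  · intro k n hk R _ _ b
    obtain ⟨C, hC⟩ := Pool.Agent.H13.RB.ring_core hk R b
    refine ⟨C, ?_⟩
    intro p hp a hzs φ M t α ht hM hα
    have : Fact p.Prime := ⟨hp⟩
    exact hC p φ M α hM (fun i => ((a i : ℤ) : ZMod p)) t ht hα hzs
  · intro k hk p hp hpk a hzs r c hc
    have : Fact p.Prime := ⟨hp⟩
    refine Pool.Agent.H13.RB.lower hk hpk a (fun i => ?_) r c hc
    have := hzs {i} (Finset.singleton_nonempty i)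
    simpa using this
  · intro k hk p hp h1 h2
    have : Fact p.Prime := ⟨hp⟩
    exact Pool.Agent.H13.RB.expo hk h1 h2
  · intro f hf k hk
    obtain ⟨p, hp, h1, h2⟩ := Nat.exists_prime_lt_and_le_two_mul (2 ^ (k - 1)) (by positivity)
    have h3 : p ≤ 2 ^ k := by
      obtain ⟨n, rfl⟩ : ∃ n, k = n + 1 := ⟨k - 1, by omega⟩
      rw [Nat.add_sub_cancel] at h2
      rw [pow_succ]
      omega
    have : Fact p.Prime := ⟨hp⟩
    obtain ⟨a, ha, hinj⟩ := Pool.Agent.H13.RB.expo hk h1 h3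
    obtain ⟨c, hc⟩ := hf k hk p hp a ha
    have h4 := (hinj (f k) c hc).2
    omega

end Pool.Agent.Results.MP_1e1895_co.LogarithmicHeight
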